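import Pool.Agent.Y382.MX.Stm
import Pool.Agent.H399R5.NilAlg

/-!
Project MX (MP_fd3e90_al): MX-NRED, terms in a nilpotent group are determined by few variables.

The values of a term on the cube of all subsets of the set of variables lie in the group generated
by the faces; the faces are ordered colexicographically.
-/

set_option autoImplicit false

namespace Pool.Agent.Y401.MX

open Pool.Agent.Helper60.Mixed Pool.Agent.Y382.MX
open scoped commutatorElement

variable {W : Type} [Group W]

/-- the filtration -/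
def gs (W : Type) [Group W] (j : ℕ) : Subgroup W := (⊤ : Subgroup W).lowerCentralSeries (j - 1)

lemma gs_antitone {i j : ℕ} (h : i ≤ j) : gs W j ≤ gs W i :=
  (⊤ : Subgroup W).lowerCentralSeries_antitone (by omega)

instance gs_normal (j : ℕ) : (gs W j).Normal := by
  unfold gs
  infer_instance

lemma gs_comm {i j : ℕ} {x y : W} (hx : x ∈ gs W i) (hy : y ∈ gs W j) : ⁅x, y⁆ ∈ gs W (i + j) := by
  rcases i with _ | i
  · rw [Nat.zero_add]
    rw [commutatorElement_def]
    exact mul_mem ((gs_normal j).conj_mem y hy x) (inv_mem hy)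
  · rcases j with _ | j
    · rw [Nat.add_zero, commutatorElement_def, mul_assoc, mul_assoc]
      refine mul_mem hx ?_
      rw [← mul_assoc]
      exact (gs_normal (i + 1)).conj_mem _ (inv_mem hx) y
    · have h1 := H399R5.lcs_comm j i (Subgroup.commutator_mem_commutator hx hy)
      unfold gs
      have e : i + 1 + (j + 1) - 1 = i + j + 1 := by omega
      rw [e]
      exact h1

/-- faces of the cube -/
def face (J : Finset ℕ) (x : W) : Finset ℕ → W := fun I => if J ⊆ I then x else 1

lemma face_one (J : Finset ℕ) : face J (1 : W) = 1 := by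
  funext I
  simp [face]

lemma face_mul (J : Finset ℕ) (x y : W) : face J (x * y) = face J x * face J y := by
  funext I
  simp only [face, Pi.mul_apply]
  split_ifs <;> simp

lemma face_inv (J : Finset ℕ) (x : W) : face J x⁻¹ = (face J x)⁻¹ := by
  funext I
  simp only [face, Pi.inv_apply]
  split_ifs <;> simp

lemma face_conj (K J : Finset ℕ) (y x : W) :
    face K y * face J x * (face K y)⁻¹ = face (K ∪ J) ⁅y, x⁆ * face J x := by
  funext I
  simp only [face, Pi.mul_apply, Pi.inv_apply, Finset.union_subset_iff, commutatorElement_def]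
  by_cases h1 : K ⊆ I <;> by_cases h2 : J ⊆ I <;> simp [h1, h2]

/-- the enumeration of the finite sets -/
def JJ (k : ℕ) : Finset ℕ := ofColex (Finset.orderIsoColex k)

lemma JJ_surj (S : Finset ℕ) : ∃ k, JJ k = S := by
  refine ⟨Finset.orderIsoColex.symm (toColex S), ?_⟩
  unfold JJ
  rw [OrderIso.apply_symm_apply]
  rfl

lemma JJ_mono {k l : ℕ} (h : JJ k ⊆ JJ l) : k ≤ l := by
  have h1 := Finset.Colex.toColex_le_toColex_of_subset h
  exact (OrderIso.le_iff_le Finset.orderIsoColex).1 h1

/-- the subgroup generated by the faces from the index `k` on -/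
def HH (W : Type) [Group W] (k : ℕ) : Subgroup (Finset ℕ → W) :=
  Subgroup.closure {f | ∃ l : ℕ, k ≤ l ∧ ∃ x ∈ gs W (JJ l).card, f = face (JJ l) x}

lemma face_mem {k l : ℕ} (h : k ≤ l) {x : W} (hx : x ∈ gs W (JJ l).card) :
    face (JJ l) x ∈ HH W k := Subgroup.subset_closure ⟨l, h, x, hx, rfl⟩

lemma conj_mem {k : ℕ} (K : Finset ℕ) {y : W} (hy : y ∈ gs W K.card) {h : Finset ℕ → W}
    (hh : h ∈ HH W k) : face K y * h * (face K y)⁻¹ ∈ HH W k := by
  have h1 : HH W k ≤ (HH W k).comap (MulAut.conj (face K y)).toMonoidHom := by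
    refine (Subgroup.closure_le _).2 ?_
    rintro _ ⟨l, hl, x, hx, rfl⟩
    change face K y * face (JJ l) x * (face K y)⁻¹ ∈ HH W k
    rw [face_conj]
    refine mul_mem ?_ (face_mem hl hx)
    obtain ⟨l', hl'⟩ := JJ_surj (K ∪ JJ l)
    have h2 : l ≤ l' := JJ_mono (by rw [hl']; exact Finset.subset_union_right)
    rw [← hl']
    refine face_mem (hl.trans h2) ?_
    rw [hl']
    exact gs_antitone (Finset.card_union_le _ _) (gs_comm hy hx)
  exact h1 hh

lemma eval_eq_one {k : ℕ} {h : Finset ℕ → W} (hh : h ∈ HH W (k + 1)) : h (JJ k) = 1 := by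
  have h1 : HH W (k + 1) ≤ (Pi.evalMonoidHom (fun _ : Finset ℕ => W) (JJ k)).ker := by
    refine (Subgroup.closure_le _).2 ?_
    rintro _ ⟨l, hl, x, -, rfl⟩
    change face (JJ l) x (JJ k) = 1
    unfold face
    rw [if_neg]
    intro hc
    have := JJ_mono hc
    omega
  exact h1 hh

lemma decomp {k : ℕ} {f : Finset ℕ → W} (hf : f ∈ HH W k) :
    ∃ x ∈ gs W (JJ k).card, ∃ h ∈ HH W (k + 1), f = face (JJ k) x * h := by
  unfold HH at hf
  induction hf using Subgroup.closure_induction with
  | mem f hf =>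
    obtain ⟨l, hl, x, hx, rfl⟩ := hf
    rcases hl.eq_or_lt with rfl | hl'
    · exact ⟨x, hx, 1, one_mem _, by rw [mul_one]⟩
    · exact ⟨1, one_mem _, face (JJ l) x, face_mem hl' hx, by rw [face_one, one_mul]⟩
  | one => exact ⟨1, one_mem _, 1, one_mem _, by rw [face_one, one_mul]⟩
  | mul f g _ _ ihf ihg =>
    obtain ⟨x, hx, h, hh, rfl⟩ := ihf
    obtain ⟨y, hy, h', hh', rfl⟩ := ihg
    refine ⟨x * y, mul_mem hx hy, (face (JJ k) y⁻¹ * h * (face (JJ k) y⁻¹)⁻¹) * h',
      mul_mem (conj_mem _ (inv_mem hy) hh) hh', ?_⟩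
    rw [face_mul, face_inv]
    group
  | inv f _ ihf =>
    obtain ⟨x, hx, h, hh, rfl⟩ := ihf
    refine ⟨x⁻¹, inv_mem hx, face (JJ k) x * h⁻¹ * (face (JJ k) x)⁻¹,
      conj_mem _ hx (inv_mem hh), ?_⟩
    rw [face_inv]
    group

/-- the values of a term on the cube -/
def FF {C : Type} (k : C → W) (t : MTerm C) (ρ : ℕ → W) : Finset ℕ → W :=
  fun I => t.eval (gi k) (fun i => if i ∈ I then ρ i else 1)

lemma FF_mem {C : Type} (k : C → W) (t : MTerm C) (ρ : ℕ → W) : FF k t ρ ∈ HH W 0 := by
  induction t with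
  | var i =>
    obtain ⟨l, hl⟩ := JJ_surj {i}
    have h1 : FF k (.var i) ρ = face (JJ l) (ρ i) := by
      funext I
      rw [hl]
      simp only [FF, face, MTerm.eval, Finset.singleton_subset_iff]
    rw [h1]
    refine face_mem (Nat.zero_le _) ?_
    rw [hl, Finset.card_singleton]
    trivial
  | const c =>
    obtain ⟨l, hl⟩ := JJ_surj ∅
    have h1 : FF k (.const c) ρ = face (JJ l) (k c) := by
      funext I
      rw [hl]
      simp only [FF, face, MTerm.eval, Finset.empty_subset, if_true]
      rfl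
    rw [h1]
    refine face_mem (Nat.zero_le _) ?_
    rw [hl, Finset.card_empty]
    trivial
  | one => exact one_mem _
  | mul s t ihs iht => exact mul_mem ihs iht
  | inv s ih => exact inv_mem ih

/-- **MX-NRED** -/
theorem t_NRED : S_NRED := by
  intro C W _ k c hc t ρ h
  have key : ∀ m : ℕ, FF k t ρ ∈ HH W m := by
    intro m
    induction m with
    | zero => exact FF_mem k t ρ
    | succ m ih =>
      obtain ⟨x, hx, g, hg, hfg⟩ := decomp ih
      have hx1 : x = 1 := by
        rcases le_or_gt (JJ m).card c with hm | hm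
        · have h1 : FF k t ρ (JJ m) = 1 := h (JJ m) hm
          rw [hfg, Pi.mul_apply, eval_eq_one hg, mul_one] at h1
          simpa [face] using h1
        · have h1 : gs W (JJ m).card ≤ ⊥ := by
            rw [← hc]
            exact (⊤ : Subgroup W).lowerCentralSeries_antitone (by omega)
          exact Subgroup.mem_bot.1 (h1 hx)
      rw [hfg, hx1, face_one, one_mul]
      exact hg
  obtain ⟨m, hm⟩ := JJ_surj (Finset.range t.bound)
  have h1 := eval_eq_one (key (m + 1))
  rw [hm] at h1
  rw [← h1]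
  refine MTerm.eval_congr _ _ _ _ fun i hi => ?_
  rw [if_pos (Finset.mem_range.2 hi)]

end Pool.Agent.Y401.MX

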